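import Pool.Agent.H31.UF.Targets
import Pool.Agent.H12.LF.UB

/-!
Module UB of the project UF: asymptotic dilation invariance of the averages over cubes.
-/

set_option autoImplicit false

open Finset Filter Topology

namespace Pool.Agent.H72.UF

open Pool.Agent.H91.LF Pool.Agent.H31.UF
open Pool.Agent.H12.LF (sum_dvd sum_block tail_div_le sum_inv_sq_le Wt Ls Wt_nonneg Ls_nonneg
  wt_nonneg mem_box tendsto_Ls tendsto_Ls_one)

/-! ### Powers -/

theorem pow_sub_le {a b : ℝ} (hb : 0 ≤ b) (hba : b ≤ a) (n : ℕ) :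
    a ^ (n + 1) - b ^ (n + 1) ≤ (n + 1) * (a - b) * a ^ n := by
  induction n with
  | zero => simp
  | succ n ih =>
    have ha : 0 ≤ a := hb.trans hba
    have h1 : b ^ (n + 1) ≤ a ^ (n + 1) := pow_le_pow_left₀ hb hba _
    have h2 : a ^ (n + 1 + 1) - b ^ (n + 1 + 1) =
        a * (a ^ (n + 1) - b ^ (n + 1)) + (a - b) * b ^ (n + 1) := by ring
    have h3 := mul_le_mul_of_nonneg_left ih ha
    have h4 := mul_le_mul_of_nonneg_left h1 (show 0 ≤ a - b by linarith)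
    rw [h2]
    push_cast
    calc a * (a ^ (n + 1) - b ^ (n + 1)) + (a - b) * b ^ (n + 1)
        ≤ a * ((n + 1) * (a - b) * a ^ n) + (a - b) * a ^ (n + 1) := add_le_add h3 h4
      _ = (n + 1 + 1) * (a - b) * a ^ (n + 1) := by ring

theorem pow_sub_mul_le {a b : ℝ} (hb : 0 ≤ b) (hba : b ≤ a) (m : ℕ) :
    (a ^ m - b ^ m) * a ≤ m * (a - b) * a ^ m := by
  rcases m with _ | n
  · simp
  · have ha : 0 ≤ a := hb.trans hba
    have h1 := mul_le_mul_of_nonneg_right (pow_sub_le hb hba n) ha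
    calc (a ^ (n + 1) - b ^ (n + 1)) * a ≤ (n + 1) * (a - b) * a ^ n * a := h1
      _ = ((n + 1 : ℕ) : ℝ) * (a - b) * a ^ (n + 1) := by push_cast; ring

/-! ### The natural averages -/

/-- Comparison of the two weights. -/
theorem weight_le {p : ℕ} (hp : 0 < p) {N : ℕ} (hN : 0 < N) (k : ℕ) (h : ℝ) {C : ℝ}
    (hC : |h| ≤ C) :
    |1 / (N : ℝ) * ((p : ℝ) ^ (k + 1) * (h * ((N / p : ℕ) : ℝ) ^ (k + 1)) / (N : ℝ) ^ (k + 1)) -
      (1 / (((N / p : ℕ) : ℝ)) * h) / p| ≤ 2 * (k + 2) * p * C * (1 / (N : ℝ) ^ 2) := by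
  have hC0 : 0 ≤ C := (abs_nonneg _).trans hC
  have hp' : (0 : ℝ) < p := by exact_mod_cast hp
  have hN' : (0 : ℝ) < N := by exact_mod_cast hN
  rcases Nat.eq_zero_or_pos (N / p) with hM | hM
  · rw [hM]
    have e0 : ((0 : ℕ) : ℝ) ^ (k + 1) = 0 := by simp
    rw [e0]
    simp only [Nat.cast_zero, div_zero, zero_mul, zero_div, sub_zero, mul_zero, abs_zero]
    positivity
  · have hM' : (0 : ℝ) < ((N / p : ℕ) : ℝ) := by exact_mod_cast hM
    set M : ℝ := ((N / p : ℕ) : ℝ) with hMdef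
    have hM1 : (1 : ℝ) ≤ M := by rw [hMdef]; exact_mod_cast hM
    have hq1 : (p : ℝ) * M ≤ N := by
      rw [hMdef]
      exact_mod_cast Nat.mul_div_le N p
    have hq2 : (N : ℝ) ≤ p * M + p := by
      have := (Nat.lt_mul_div_succ N hp).le
      have h5 : (N : ℝ) ≤ p * (((N / p : ℕ) : ℝ) + 1) := by exact_mod_cast this
      rw [← hMdef] at h5
      linarith
    set q : ℝ := (p : ℝ) * M with hq
    have hq0 : 0 < q := mul_pos hp' hM'
    have hq3 : (p : ℝ) ≤ q := by rw [hq]; nlinarith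
    have hq4 : (N : ℝ) ≤ 2 * q := by linarith
    have e1 : 1 / (N : ℝ) * ((p : ℝ) ^ (k + 1) * (h * M ^ (k + 1)) / (N : ℝ) ^ (k + 1)) -
        (1 / M * h) / p = h * (q ^ (k + 1) / (N : ℝ) ^ (k + 2) - 1 / q) := by
      rw [hq, mul_pow]
      field_simp
      ring
    rw [e1, abs_mul]
    have h2 : |q ^ (k + 1) / (N : ℝ) ^ (k + 2) - 1 / q| ≤ 2 * (k + 2) * p * (1 / (N : ℝ) ^ 2) := by
      rw [abs_sub_comm]
      have e2 : 1 / q - q ^ (k + 1) / (N : ℝ) ^ (k + 2) =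
          ((N : ℝ) ^ (k + 1 + 1) - q ^ (k + 1 + 1)) / (q * (N : ℝ) ^ (k + 2)) := by
        field_simp
        ring
      have hnn : 0 ≤ (N : ℝ) ^ (k + 1 + 1) - q ^ (k + 1 + 1) :=
        sub_nonneg.2 (pow_le_pow_left₀ hq0.le hq1 _)
      rw [e2, abs_of_nonneg (div_nonneg hnn (by positivity)), div_le_iff₀ (by positivity)]
      have h3 := pow_sub_le hq0.le hq1 (k + 1)
      have h4 : ((k + 1 : ℕ) : ℝ) + 1 = k + 2 := by push_cast; ring
      have h4' : (((k + 1 : ℕ) : ℝ) + 1) * ((N : ℝ) - q) * (N : ℝ) ^ (k + 1) ≤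
          (k + 2) * p * (N : ℝ) ^ (k + 1) := by
        rw [h4]
        have h5 : (N : ℝ) - q ≤ p := by linarith
        gcongr
      have h6 : 2 * ((k : ℝ) + 2) * p * (1 / (N : ℝ) ^ 2) * (q * (N : ℝ) ^ (k + 2)) =
          (k + 2) * p * ((2 * q) * (N : ℝ) ^ k) := by
        have hNN : (N : ℝ) ≠ 0 := by positivity
        have h6a : (1 / (N : ℝ) ^ 2) * (N : ℝ) ^ (k + 2) = (N : ℝ) ^ k := by
          rw [pow_add]
          field_simp
        calc 2 * ((k : ℝ) + 2) * p * (1 / (N : ℝ) ^ 2) * (q * (N : ℝ) ^ (k + 2))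
            = (k + 2) * p * (2 * q) * ((1 / (N : ℝ) ^ 2) * (N : ℝ) ^ (k + 2)) := by ring
          _ = _ := by rw [h6a]; ring
      have h7 : (N : ℝ) ^ (k + 1) ≤ (2 * q) * (N : ℝ) ^ k := by
        rw [pow_succ, mul_comm]
        gcongr
      rw [h6]
      calc (N : ℝ) ^ (k + 1 + 1) - q ^ (k + 1 + 1) ≤ (k + 2) * p * (N : ℝ) ^ (k + 1) :=
            h3.trans h4'
        _ ≤ (k + 2) * p * ((2 * q) * (N : ℝ) ^ k) := by gcongr
    calc |h| * |q ^ (k + 1) / (N : ℝ) ^ (k + 2) - 1 / q|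
        ≤ C * (2 * (k + 2) * p * (1 / (N : ℝ) ^ 2)) :=
          mul_le_mul hC h2 (abs_nonneg _) hC0
      _ = _ := by ring

/-- The natural part, sums from `1`. -/
theorem nat_part_one {p : ℕ} (hp : 0 < p) (k : ℕ) {h : ℕ → ℝ} {C : ℝ} (hC : ∀ N, |h N| ≤ C)
    (n : ℕ) :
    |∑ N ∈ Finset.Icc 1 n, 1 / (N : ℝ) * ((p : ℝ) ^ (k + 1) * (h (N / p) *
      ((N / p : ℕ) : ℝ) ^ (k + 1)) / (N : ℝ) ^ (k + 1)) -
      ∑ N ∈ Finset.Icc 1 n, 1 / (N : ℝ) * h N| ≤ 4 * (k + 2) * p * C + C + C * p := by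
  have hC0 : 0 ≤ C := (abs_nonneg _).trans (hC 0)
  have hp' : (0 : ℝ) < p := by exact_mod_cast hp
  set κ : ℕ → ℝ := fun M => 1 / (M : ℝ) * h M with hκ
  have hκ0 : κ 0 = 0 := by simp [hκ]
  have h1 : |∑ N ∈ Finset.Icc 1 n, 1 / (N : ℝ) * ((p : ℝ) ^ (k + 1) * (h (N / p) *
      ((N / p : ℕ) : ℝ) ^ (k + 1)) / (N : ℝ) ^ (k + 1)) -
      ∑ N ∈ Finset.Icc 1 n, κ (N / p) / p| ≤ 4 * (k + 2) * p * C := by
    rw [← Finset.sum_sub_distrib]
    refine (Finset.abs_sum_le_sum_abs _ _).trans ?_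
    refine (Finset.sum_le_sum
      (g := fun N : ℕ => 2 * (k + 2) * p * C * (1 / (N : ℝ) ^ 2)) ?_).trans ?_
    · intro N hN
      exact weight_le hp (Finset.mem_Icc.1 hN).1 k _ (hC _)
    · rw [← Finset.mul_sum]
      calc 2 * ((k : ℝ) + 2) * p * C * ∑ N ∈ Finset.Icc 1 n, 1 / (N : ℝ) ^ 2 ≤
          2 * ((k : ℝ) + 2) * p * C * 2 :=
            mul_le_mul_of_nonneg_left (sum_inv_sq_le Nat.one_pos n) (by positivity)
        _ = _ := by ring
  have h2 := sum_block hp hκ0 n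
  have h3 : |(1 - ((n % p : ℕ) + 1 : ℝ) / p) * κ (n / p)| ≤ C := by
    have h31 : ((n % p : ℕ) : ℝ) + 1 ≤ p := by exact_mod_cast Nat.mod_lt n hp
    have h32 : ((n % p : ℕ) + 1 : ℝ) / p ≤ 1 := by
      rw [div_le_one hp']; exact h31
    have h33 : (0 : ℝ) ≤ ((n % p : ℕ) + 1 : ℝ) / p := by positivity
    rw [abs_mul]
    have h34 : |1 - ((n % p : ℕ) + 1 : ℝ) / p| ≤ 1 := by
      rw [abs_le]; constructor <;> linarith
    have h35 : |κ (n / p)| ≤ C := by
      rcases Nat.eq_zero_or_pos (n / p) with hM | hM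
      · rw [hM, hκ0]; simpa using hC0
      · rw [hκ, abs_mul, abs_of_nonneg (by positivity)]
        have hM1 : (1 : ℝ) ≤ ((n / p : ℕ) : ℝ) := by exact_mod_cast hM
        have h36 : 1 / ((n / p : ℕ) : ℝ) ≤ 1 := by
          rw [div_le_one (by linarith)]; exact hM1
        calc 1 / ((n / p : ℕ) : ℝ) * |h (n / p)| ≤ 1 * C :=
              mul_le_mul h36 (hC _) (abs_nonneg _) zero_le_one
          _ = C := one_mul C
    calc |1 - ((n % p : ℕ) + 1 : ℝ) / p| * |κ (n / p)| ≤ 1 * C :=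
          mul_le_mul h34 h35 (abs_nonneg _) zero_le_one
      _ = C := one_mul C
  have h4 := tail_div_le hC hp n
  rw [abs_le] at h1 h3 h4 ⊢
  rw [h2] at h1
  constructor <;> linarith [h1.1, h1.2, h3.1, h3.2, h4.1, h4.2]

/-- The natural part. -/
theorem nat_part {p : ℕ} (hp : 0 < p) (k : ℕ) {h : ℕ → ℝ} {C : ℝ} (hC : ∀ N, |h N| ≤ C)
    (x y : ℕ) (hx : 0 < x) :
    |∑ N ∈ Finset.Icc x y, 1 / (N : ℝ) * ((p : ℝ) ^ (k + 1) * (h (N / p) *
      ((N / p : ℕ) : ℝ) ^ (k + 1)) / (N : ℝ) ^ (k + 1)) -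
      ∑ N ∈ Finset.Icc x y, 1 / (N : ℝ) * h N| ≤ 2 * (4 * (k + 2) * p * C + C + C * p) := by
  have hC0 : 0 ≤ C := (abs_nonneg _).trans (hC 0)
  rcases lt_or_ge y x with hyx | hxy
  · rw [Finset.Icc_eq_empty (by omega)]
    simp only [Finset.sum_empty, sub_zero, abs_zero]
    positivity
  have split : ∀ F : ℕ → ℝ, ∑ N ∈ Finset.Icc x y, F N =
      ∑ N ∈ Finset.Icc 1 y, F N - ∑ N ∈ Finset.Icc 1 (x - 1), F N := by
    intro F
    have e1 : Finset.Icc 1 y = Finset.Icc 1 (x - 1) ∪ Finset.Icc x y := by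
      ext i
      simp only [Finset.mem_union, Finset.mem_Icc]
      omega
    have e2 : Disjoint (Finset.Icc 1 (x - 1)) (Finset.Icc x y) := by
      rw [Finset.disjoint_left]
      intro i hi hi'
      simp only [Finset.mem_Icc] at hi hi'
      omega
    rw [e1, Finset.sum_union e2]
    ring
  rw [split, split (fun N => 1 / (N : ℝ) * h N)]
  have h1 := nat_part_one hp k hC y
  have h2 := nat_part_one hp k hC (x - 1)
  rw [abs_le] at h1 h2 ⊢
  constructor <;> linarith [h1.1, h1.2, h2.1, h2.2]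

/-! ### Sums over the box -/

theorem Wt_eq_pow (m T : ℕ) : Wt m T = Ls 1 T ^ m := by
  unfold Wt Ls wt Pool.Agent.H91.LF.box
  rw [← Finset.prod_univ_sum (fun _ : Fin m => Finset.Icc 1 T)
    (fun _ (a : ℕ) => (1 : ℝ) / (a : ℝ))]
  simp

theorem wt_mul {m : ℕ} (p : ℕ) (s : Fin m → ℕ) :
    wt (fun l => p * s l) = (1 / (p : ℝ)) ^ m * wt s := by
  unfold wt
  have h1 : ∀ l ∈ (Finset.univ : Finset (Fin m)), (1 : ℝ) / ((p * s l : ℕ) : ℝ) =
      (1 / (p : ℝ)) * (1 / (s l : ℝ)) := by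
    intro l _
    push_cast
    rw [one_div_mul_one_div]
  rw [Finset.prod_congr rfl h1, Finset.prod_mul_distrib, Finset.prod_const, Finset.card_univ,
    Fintype.card_fin]

open Classical in
theorem sum_box_dvd {m p : ℕ} (hp : 0 < p) (T : ℕ) (F : (Fin m → ℕ) → ℝ) :
    ∑ t ∈ box m T, wt t * (if ∀ l, p ∣ t l then (p : ℝ) ^ m * F (fun l => t l / p) else 0) =
      ∑ t ∈ box m (T / p), wt t * F t := by
  have hp' : (0 : ℝ) < p := by exact_mod_cast hp
  have h1 : ∑ t ∈ box m T, wt t * (if ∀ l, p ∣ t l then (p : ℝ) ^ m * F (fun l => t l / p)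
      else 0) = ∑ t ∈ (box m T).filter (fun t => ∀ l, p ∣ t l),
        wt t * ((p : ℝ) ^ m * F (fun l => t l / p)) := by
    rw [Finset.sum_filter]
    refine Finset.sum_congr rfl fun t _ => ?_
    split_ifs <;> simp
  rw [h1]
  refine Finset.sum_nbij' (fun t l => t l / p) (fun s l => p * s l) ?_ ?_ ?_ ?_ ?_
  · intro t ht
    rw [Finset.mem_filter, mem_box] at ht
    rw [mem_box]
    intro l
    have h2 := ht.1 l
    exact ⟨Nat.div_pos (Nat.le_of_dvd (by omega) (ht.2 l)) hp, Nat.div_le_div_right h2.2⟩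
  · intro s hs
    rw [mem_box] at hs
    rw [Finset.mem_filter, mem_box]
    refine ⟨fun l => ⟨?_, ?_⟩, fun l => dvd_mul_right _ _⟩
    · exact Nat.mul_pos hp (hs l).1
    · exact (Nat.mul_le_mul_left p (hs l).2).trans (Nat.mul_div_le T p)
  · intro t ht
    rw [Finset.mem_filter] at ht
    funext l
    exact Nat.mul_div_cancel' (ht.2 l)
  · intro s _
    funext l
    exact Nat.mul_div_cancel_left _ hp
  · intro t ht
    rw [Finset.mem_filter] at ht
    have h2 : t = fun l => p * (t l / p) := by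
      funext l
      exact (Nat.mul_div_cancel' (ht.2 l)).symm
    have h3 : wt t = (1 / (p : ℝ)) ^ m * wt (fun l => t l / p) := by
      conv_lhs => rw [h2]
      exact wt_mul p _
    rw [h3]
    have h4 : (1 / (p : ℝ)) ^ m * (p : ℝ) ^ m = 1 := by
      rw [← mul_pow, one_div_mul_cancel hp'.ne', one_pow]
    calc (1 / (p : ℝ)) ^ m * wt (fun l => t l / p) * ((p : ℝ) ^ m * F (fun l => t l / p))
        = ((1 / (p : ℝ)) ^ m * (p : ℝ) ^ m) * (wt (fun l => t l / p) * F (fun l => t l / p)) := by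
          ring
      _ = wt (fun l => t l / p) * F (fun l => t l / p) := by rw [h4, one_mul]

/-! ### The averages over cubes -/

variable {k m : ℕ}

/-- The sum over the cubes. -/
noncomputable def SC (f : (Fin (k + 1 + m) → ℤ) → ℝ) (t : Fin m → ℕ) (N : ℕ) : ℝ :=
  ∑ z ∈ CB k N, f (Fin.append z (fun l => (t l : ℤ)))

/-- The inner average. -/
noncomputable def GC (x y : ℕ) (f : (Fin (k + 1 + m) → ℤ) → ℝ) (t : Fin m → ℕ) : ℝ :=
  ∑ N ∈ Finset.Icc x y, (1 / (N : ℝ)) * (SC f t N / (N : ℝ) ^ (k + 1))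

theorem ak_eq (T x y : ℕ) (f : (Fin (k + 1 + m) → ℤ) → ℝ) :
    ak k m T x y f = ∑ t ∈ box m T, wt t * GC x y f t := rfl

theorem SC_abs_le (hCBC : T_CBC) {f : (Fin (k + 1 + m) → ℤ) → ℝ} {C : ℝ}
    (hf : ∀ ω, |f ω| ≤ C) (t : Fin m → ℕ) (N : ℕ) :
    |SC f t N| ≤ C * 3 ^ k * (N : ℝ) ^ (k + 1) := by
  have hC : 0 ≤ C := (abs_nonneg _).trans (hf 0)
  have h1 := (hCBC k).2.1 N
  unfold SC
  refine (Finset.abs_sum_le_sum_abs _ _).trans ?_
  refine (Finset.sum_le_sum (fun z _ => hf _)).trans ?_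
  rw [Finset.sum_const, nsmul_eq_mul]
  calc ((CB k N).card : ℝ) * C ≤ (3 ^ k * (N : ℝ) ^ (k + 1)) * C :=
        mul_le_mul_of_nonneg_right h1 hC
    _ = _ := by ring

theorem SC_div_abs_le (hCBC : T_CBC) {f : (Fin (k + 1 + m) → ℤ) → ℝ} {C : ℝ}
    (hf : ∀ ω, |f ω| ≤ C) (t : Fin m → ℕ) (N : ℕ) :
    |SC f t N / (N : ℝ) ^ (k + 1)| ≤ C * 3 ^ k := by
  have hC : 0 ≤ C := (abs_nonneg _).trans (hf 0)
  rcases Nat.eq_zero_or_pos N with h | h
  · subst h
    have e0 : ((0 : ℕ) : ℝ) ^ (k + 1) = 0 := by simp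
    rw [e0, div_zero, abs_zero]
    positivity
  · have h2 : (0 : ℝ) < (N : ℝ) ^ (k + 1) := by positivity
    rw [abs_div, abs_of_pos h2, div_le_iff₀ h2]
    exact SC_abs_le hCBC hf t N

theorem GC_abs_le (hCBC : T_CBC) {f : (Fin (k + 1 + m) → ℤ) → ℝ} {C : ℝ}
    (hf : ∀ ω, |f ω| ≤ C) (x y : ℕ) (t : Fin m → ℕ) :
    |GC x y f t| ≤ C * 3 ^ k * Ls x y := by
  unfold GC Ls
  refine (Finset.abs_sum_le_sum_abs _ _).trans ?_
  rw [Finset.mul_sum]
  refine Finset.sum_le_sum fun N _ => ?_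
  rw [abs_mul, abs_of_nonneg (by positivity : (0 : ℝ) ≤ 1 / (N : ℝ)), mul_comm]
  exact mul_le_mul_of_nonneg_right (SC_div_abs_le hCBC hf t N) (by positivity)

open Classical in
/-- The dilated function. -/
noncomputable def dil (p : ℕ) (f : (Fin (k + 1 + m) → ℤ) → ℝ) : (Fin (k + 1 + m) → ℤ) → ℝ :=
  fun ω => (p : ℝ) ^ (k + 1 + m) * if ∀ i, (p : ℤ) ∣ ω i then f (fun i => ω i / p) else 0

open Classical in
theorem dil_append (p : ℕ) (f : (Fin (k + 1 + m) → ℤ) → ℝ) (z : Fin (k + 1) → ℤ)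
    (t : Fin m → ℕ) : dil p f (Fin.append z (fun l => (t l : ℤ))) =
      (p : ℝ) ^ (k + 1 + m) * if ∀ l, p ∣ t l then
        (if ∀ i, (p : ℤ) ∣ z i then
          f (Fin.append (fun i => z i / p) (fun l => ((t l / p : ℕ) : ℤ))) else 0) else 0 := by
  unfold dil
  have h1 : (∀ i, (p : ℤ) ∣ (Fin.append z (fun l => (t l : ℤ)) : Fin (k + 1 + m) → ℤ) i) ↔
      (∀ l, p ∣ t l) ∧ ∀ i, (p : ℤ) ∣ z i := by
    constructor
    · intro h
      refine ⟨fun l => ?_, fun i => ?_⟩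
      · have h2 := h (Fin.natAdd (k + 1) l)
        rw [Fin.append_right] at h2
        exact Int.natCast_dvd_natCast.1 h2
      · have h2 := h (Fin.castAdd m i)
        rwa [Fin.append_left] at h2
    · rintro ⟨h2, h3⟩ i
      refine Fin.addCases (fun i => ?_) (fun l => ?_) i
      · rw [Fin.append_left]
        exact h3 i
      · rw [Fin.append_right]
        exact Int.natCast_dvd_natCast.2 (h2 l)
  have h2 : (fun i => (Fin.append z (fun l => (t l : ℤ)) : Fin (k + 1 + m) → ℤ) i / (p : ℤ)) =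
      Fin.append (fun i => z i / (p : ℤ)) (fun l => ((t l / p : ℕ) : ℤ)) := by
    funext i
    refine Fin.addCases (fun i => ?_) (fun l => ?_) i
    · rw [Fin.append_left, Fin.append_left]
    · rw [Fin.append_right, Fin.append_right]
      push_cast
      rfl
  rw [h2, ← ite_and]
  exact congrArg _ (if_congr h1 rfl rfl)

open Classical in
theorem SC_dil (hCBD : T_CBD) {p : ℕ} (hp : 0 < p) (f : (Fin (k + 1 + m) → ℤ) → ℝ)
    (t : Fin m → ℕ) (N : ℕ) : SC (dil p f) t N =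
      if ∀ l, p ∣ t l then (p : ℝ) ^ m * ((p : ℝ) ^ (k + 1) * SC f (fun l => t l / p) (N / p))
        else 0 := by
  unfold SC
  simp only [dil_append]
  by_cases h : ∀ l, p ∣ t l
  · simp only [if_pos h]
    rw [← Finset.mul_sum, hCBD k N p
      (fun z => f (Fin.append z (fun l => ((t l / p : ℕ) : ℤ)))) hp, pow_add]
    ring
  · simp only [if_neg h, mul_zero, Finset.sum_const_zero]

open Classical in
theorem GC_dil (hCBC : T_CBC) (hCBD : T_CBD) {p : ℕ} (hp : 0 < p)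
    (f : (Fin (k + 1 + m) → ℤ) → ℝ) (t : Fin m → ℕ) (x y : ℕ) : GC x y (dil p f) t =
      if ∀ l, p ∣ t l then (p : ℝ) ^ m * (fun s : Fin m → ℕ => ∑ N ∈ Finset.Icc x y,
        1 / (N : ℝ) * ((p : ℝ) ^ (k + 1) * (SC f s (N / p) / ((N / p : ℕ) : ℝ) ^ (k + 1) *
          ((N / p : ℕ) : ℝ) ^ (k + 1)) / (N : ℝ) ^ (k + 1))) (fun l => t l / p) else 0 := by
  unfold GC
  simp only [SC_dil hCBD hp]
  by_cases h : ∀ l, p ∣ t l
  · simp only [if_pos h]
    rw [Finset.mul_sum]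
    refine Finset.sum_congr rfl fun N _ => ?_
    have h1 : SC f (fun l => t l / p) (N / p) / ((N / p : ℕ) : ℝ) ^ (k + 1) *
        ((N / p : ℕ) : ℝ) ^ (k + 1) = SC f (fun l => t l / p) (N / p) := by
      rcases Nat.eq_zero_or_pos (N / p) with h0 | h0
      · rw [h0]
        have e0 : ((0 : ℕ) : ℝ) ^ (k + 1) = 0 := by simp
        rw [e0, mul_zero]
        have h2 : (CB k 0).card = 0 := by
          have h3 := (hCBC k).2.1 0
          rw [e0, mul_zero] at h3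
          have h4 : (0 : ℝ) ≤ ((CB k 0).card : ℝ) := Nat.cast_nonneg _
          exact_mod_cast le_antisymm h3 h4
        unfold SC
        rw [Finset.card_eq_zero.1 h2, Finset.sum_empty]
      · have : (0 : ℝ) < ((N / p : ℕ) : ℝ) := by exact_mod_cast h0
        field_simp
    rw [h1]
    ring
  · simp only [if_neg h, mul_zero, zero_div, Finset.sum_const_zero]

theorem box_subset {T T' : ℕ} (h : T' ≤ T) : box m T' ⊆ box m T := by
  intro t ht
  rw [mem_box] at ht ⊢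
  exact fun l => ⟨(ht l).1, (ht l).2.trans h⟩

/-- The difference of the sums. -/
theorem ak_diff (hCBC : T_CBC) (hCBD : T_CBD) {p : ℕ} (hp : 0 < p)
    {f : (Fin (k + 1 + m) → ℤ) → ℝ} {C : ℝ} (hf : ∀ ω, |f ω| ≤ C) (T x y : ℕ) (hx : 0 < x) :
    |ak k m T x y (dil p f) - ak k m T x y f| ≤
      2 * (4 * (k + 2) * p * (C * 3 ^ k) + C * 3 ^ k + C * 3 ^ k * p) * Wt m T +
        C * 3 ^ k * Ls x y * (Wt m T - Wt m (T / p)) := by
  classical
  have hC : 0 ≤ C := (abs_nonneg _).trans (hf 0)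
  set E : ℝ := 2 * (4 * (k + 2) * p * (C * 3 ^ k) + C * 3 ^ k + C * 3 ^ k * p) with hE
  have hE0 : 0 ≤ E := by positivity
  set F : (Fin m → ℕ) → ℝ := fun s => ∑ N ∈ Finset.Icc x y,
        1 / (N : ℝ) * ((p : ℝ) ^ (k + 1) * (SC f s (N / p) / ((N / p : ℕ) : ℝ) ^ (k + 1) *
          ((N / p : ℕ) : ℝ) ^ (k + 1)) / (N : ℝ) ^ (k + 1)) with hF
  have h1 : ak k m T x y (dil p f) = ∑ t ∈ box m (T / p), wt t * F t := by
    rw [ak_eq, ← sum_box_dvd hp T F]
    refine Finset.sum_congr rfl fun t _ => ?_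
    rw [GC_dil hCBC hCBD hp]
  have h2 : ∀ t : Fin m → ℕ, |F t - GC x y f t| ≤ E := fun t =>
    nat_part hp k (h := fun N => SC f t N / (N : ℝ) ^ (k + 1)) (C := C * 3 ^ k)
      (fun N => SC_div_abs_le hCBC hf t N) x y hx
  have hsub : box m (T / p) ⊆ box m T := box_subset (Nat.div_le_self T p)
  have h3 : ak k m T x y f = ∑ t ∈ box m (T / p), wt t * GC x y f t +
      ∑ t ∈ box m T \ box m (T / p), wt t * GC x y f t := by
    rw [ak_eq, add_comm, Finset.sum_sdiff hsub]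
  have h4 : Wt m T - Wt m (T / p) = ∑ t ∈ box m T \ box m (T / p), wt t := by
    unfold Wt
    rw [← Finset.sum_sdiff hsub]
    ring
  rw [h1, h3, h4]
  have h5 : |∑ t ∈ box m (T / p), wt t * F t - ∑ t ∈ box m (T / p), wt t * GC x y f t| ≤
      E * Wt m T := by
    rw [← Finset.sum_sub_distrib]
    refine (Finset.abs_sum_le_sum_abs _ _).trans ?_
    unfold Wt
    rw [Finset.mul_sum]
    refine (Finset.sum_le_sum (g := fun t => E * wt t) fun t _ => ?_).trans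
      (Finset.sum_le_sum_of_subset_of_nonneg hsub fun t _ _ => mul_nonneg hE0 (wt_nonneg t))
    rw [← mul_sub, abs_mul, abs_of_nonneg (wt_nonneg t), mul_comm]
    exact mul_le_mul_of_nonneg_right (h2 t) (wt_nonneg t)
  have h6 : |∑ t ∈ box m T \ box m (T / p), wt t * GC x y f t| ≤
      C * 3 ^ k * Ls x y * ∑ t ∈ box m T \ box m (T / p), wt t := by
    refine (Finset.abs_sum_le_sum_abs _ _).trans ?_
    rw [Finset.mul_sum]
    refine Finset.sum_le_sum fun t _ => ?_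
    rw [abs_mul, abs_of_nonneg (wt_nonneg t), mul_comm]
    exact mul_le_mul_of_nonneg_right (GC_abs_le hCBC hf x y t) (wt_nonneg t)
  rw [abs_le] at h5 h6 ⊢
  constructor <;> linarith [h5.1, h5.2, h6.1, h6.2]

/-- The lower bound for the denominator. -/
theorem ak_one (hCBC : T_CBC) : ∃ c : ℝ, 0 < c ∧ ∀ T x y : ℕ, 0 < x →
    c * (Wt m T * Ls x y) ≤ ak k m T x y (fun _ => 1) := by
  obtain ⟨c, hc, h1⟩ := (hCBC k).2.2
  refine ⟨c, hc, fun T x y hx => ?_⟩
  rw [ak_eq]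
  unfold Wt
  rw [Finset.sum_mul, Finset.mul_sum]
  refine Finset.sum_le_sum fun t _ => ?_
  have h2 : c * Ls x y ≤ GC x y (fun _ : Fin (k + 1 + m) → ℤ => (1 : ℝ)) t := by
    unfold Ls GC SC
    rw [Finset.mul_sum]
    refine Finset.sum_le_sum fun N hN => ?_
    have hN' : (0 : ℝ) < N := by
      have := (Finset.mem_Icc.1 hN).1
      exact_mod_cast (hx.trans_le this)
    have h3 : c ≤ (∑ _z ∈ CB k N, (1 : ℝ)) / (N : ℝ) ^ (k + 1) := by
      rw [le_div_iff₀ (by positivity)]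
      simpa using h1 N
    rw [mul_comm]
    exact mul_le_mul_of_nonneg_left h3 (by positivity)
  calc c * (wt t * Ls x y) = wt t * (c * Ls x y) := by ring
    _ ≤ _ := mul_le_mul_of_nonneg_left h2 (wt_nonneg t)

/-- [UB] Asymptotic dilation invariance. -/
theorem pf_UB (hCBC : T_CBC) (hCBD : T_CBD) : T_UB := by
  classical
  intro k m T x y hA p hp f hf
  obtain ⟨hT, hx, hxy, -⟩ := hA
  obtain ⟨C, hC⟩ := hf
  have hC0 : 0 ≤ C := (abs_nonneg _).trans (hC 0)
  obtain ⟨c, hc, hone⟩ := ak_one (k := k) (m := m) hCBC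
  have hp' : (0 : ℝ) < p := by exact_mod_cast hp
  set E : ℝ := 2 * (4 * (k + 2) * p * (C * 3 ^ k) + C * 3 ^ k + C * 3 ^ k * p) with hE
  have hE0 : 0 ≤ E := by positivity
  have hL := tendsto_Ls hx hxy
  have hH := tendsto_Ls_one hT
  have hlim : Tendsto (fun j => (E / c) / Ls (x j) (y j) +
      (C * 3 ^ k * (m * p) / c) / Ls 1 (T j)) atTop (𝓝 0) := by
    have h1 : Tendsto (fun j => (E / c) / Ls (x j) (y j)) atTop (𝓝 0) := hL.const_div_atTop _
    have h2 : Tendsto (fun j => (C * 3 ^ k * (m * p) / c) / Ls 1 (T j)) atTop (𝓝 0) :=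
      hH.const_div_atTop _
    simpa using h1.add h2
  rw [tendsto_zero_iff_abs_tendsto_zero]
  refine tendsto_of_tendsto_of_tendsto_of_le_of_le' tendsto_const_nhds hlim
    (Eventually.of_forall fun j => abs_nonneg _) ?_
  filter_upwards [hL.eventually_gt_atTop 0, hH.eventually_gt_atTop 0] with j hLj hHj
  have hW : 0 < Wt m (T j) := by
    rw [Wt_eq_pow]
    positivity
  have hden : 0 < c * (Wt m (T j) * Ls (x j) (y j)) := by positivity
  have hden' := hone (T j) (x j) (y j) (hx j)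
  have hak : 0 < ak k m (T j) (x j) (y j) (fun _ => 1) := hden.trans_le hden'
  have hd := ak_diff hCBC hCBD hp hC (T j) (x j) (y j) (hx j)
  rw [← hE] at hd
  have hWW : (Wt m (T j) - Wt m (T j / p)) * Ls 1 (T j) ≤ m * p * Wt m (T j) := by
    rw [Wt_eq_pow, Wt_eq_pow]
    have h1 : Ls 1 (T j / p) ≤ Ls 1 (T j) := by
      unfold Ls
      exact Finset.sum_le_sum_of_subset_of_nonneg
        (Finset.Icc_subset_Icc_right (Nat.div_le_self _ _)) fun _ _ _ => by positivity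
    have h2 := pow_sub_mul_le (Ls_nonneg 1 (T j / p)) h1 m
    have h3 : Ls 1 (T j) - Ls 1 (T j / p) ≤ p := by
      have h4 := tail_div_le (h := fun _ => 1) (S := 1) (fun _ => by simp) hp (T j)
      simp only [mul_one, one_mul] at h4
      have h5 := (abs_le.1 h4).1
      unfold Ls
      linarith
    refine h2.trans ?_
    gcongr
  have h1 : |ak k m (T j) (x j) (y j) (dil p f) - ak k m (T j) (x j) (y j) f| ≤
      ((E / c) / Ls (x j) (y j) + (C * 3 ^ k * (m * p) / c) / Ls 1 (T j)) *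
        ak k m (T j) (x j) (y j) (fun _ => 1) := by
    refine hd.trans ?_
    refine le_trans ?_ (mul_le_mul_of_nonneg_left hden' (by positivity))
    have e1 : ((E / c) / Ls (x j) (y j) + (C * 3 ^ k * (m * p) / c) / Ls 1 (T j)) *
        (c * (Wt m (T j) * Ls (x j) (y j))) = E * Wt m (T j) +
        C * 3 ^ k * Ls (x j) (y j) * (m * p * Wt m (T j) / Ls 1 (T j)) := by
      field_simp
    rw [e1]
    have h2 : Wt m (T j) - Wt m (T j / p) ≤ m * p * Wt m (T j) / Ls 1 (T j) := by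
      rw [le_div_iff₀ hHj]
      exact hWW
    gcongr
  have h2 : av k m (T j) (x j) (y j) (fun ω => (p : ℝ) ^ (k + 1 + m) *
      if ∀ i, (p : ℤ) ∣ ω i then f (fun i => ω i / p) else 0) - av k m (T j) (x j) (y j) f =
      (ak k m (T j) (x j) (y j) (dil p f) - ak k m (T j) (x j) (y j) f) /
        ak k m (T j) (x j) (y j) (fun _ => 1) := by
    rw [sub_div]
    rfl
  show |av k m (T j) (x j) (y j) (fun ω => (p : ℝ) ^ (k + 1 + m) *
      if ∀ i, (p : ℤ) ∣ ω i then f (fun i => ω i / p) else 0) - av k m (T j) (x j) (y j) f| ≤ _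
  rw [h2, abs_div, abs_of_pos hak, div_le_iff₀ hak]
  exact h1

end Pool.Agent.H72.UF
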